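import Mathlib

/-!
# First-move self-regulating pushdown automata: definitions
-/

namespace Pool.Agent.R538.SR

/-- Pushdown automata over the alphabet `S`. `Q` are the states, `G` the pushdown symbols, `P` the
rules. The rule `r` replaces the top symbol `pop r` by the word `push r` (first letter = new top),
goes from the state `src r` to the state `dst r` and reads the word `read r`. -/
structure PDA (S : Type) where
  /-- states -/
  Q : Type
  /-- pushdown symbols -/
  G : Type
  /-- rules -/
  P : Type
  finQ : Finite Q
  finG : Finite G
  finP : Finite P
  /-- the symbol which is popped -/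
  pop : P → G
  /-- the state before the move -/
  src : P → Q
  /-- the word which is read -/
  read : P → List S
  /-- the word which is pushed (top first) -/
  push : P → List G
  /-- the state after the move -/
  dst : P → Q
  /-- initial state -/
  q0 : Q
  /-- initial pushdown symbol -/
  Z0 : G
  /-- final states -/
  F : Set Q

variable {S : Type}

/-- `Run M c m c'`: the sequence `m` of rules leads from the configuration `c` (state and pushdown
contents, top first) to the configuration `c'`. -/
def Run (M : PDA S) : M.Q × List M.G → List M.P → M.Q × List M.G → Prop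
  | c, [], c' => c = c'
  | c, r :: m, c' => ∃ s, c = (M.src r, M.pop r :: s) ∧ Run M (M.dst r, M.push r ++ s) m c'

/-- The sequence `m` of rules is an accepting computation: it ends in a final state with empty
pushdown. -/
def Acc (M : PDA S) (m : List M.P) : Prop := ∃ f ∈ M.F, Run M (M.q0, [M.Z0]) m (f, [])

/-- the language of a pushdown automaton -/
def lang (M : PDA S) : Set (List S) := {w | ∃ m, Acc M m ∧ w = m.flatMap M.read}

/-- `K` is accepted by a real-time pushdown automaton: each move reads exactly one letter. -/
def RealTime (K : Set (List S)) : Prop :=
  ∃ M : PDA S, (∀ r, (M.read r).length = 1) ∧ K = lang M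

/-- The sequence of rules of the computation splits into `n + 1` blocks `B` of the same length
`k ≥ 1`; the first block ends with the first move into the turn state `qt`; the first rules of
consecutive blocks are related by `R`. -/
def Blocks (M : PDA S) (n : ℕ) (qt : M.Q) (R : M.P → M.P → Prop) (B : List (List M.P)) : Prop :=
  B.length = n + 1 ∧ (∃ k, 1 ≤ k ∧ ∀ b ∈ B, b.length = k) ∧
    (∃ m r B', B = (m ++ [r]) :: B' ∧ M.dst r = qt ∧ ∀ r' ∈ m, M.dst r' ≠ qt) ∧
    B.IsChain (fun b b' => ∃ r ∈ b.head?, ∃ r' ∈ b'.head?, R r r')

/-- `L` is accepted by an `n`-turn first-move self-regulating pushdown automaton. -/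
def FSPDA (n : ℕ) (L : Set (List S)) : Prop :=
  ∃ (M : PDA S) (qt : M.Q) (R : M.P → M.P → Prop),
    L = {w | ∃ B : List (List M.P), Blocks M n qt R B ∧ Acc M B.flatten ∧
      w = B.flatten.flatMap M.read}

/-- The words `x_0 # x_1 # ... # x_n` with `|x_0| = |x_1| = ... = |x_n|`; the letter `#` is
`none`. -/
def E (n : ℕ) (T : Type) : Set (List (Option T)) :=
  {x | ∃ (X : List (List T)) (k : ℕ), X.length = n + 1 ∧ (∀ y ∈ X, y.length = k) ∧
    x = List.intercalate [none] (X.map (List.map some))}

/-- the homomorphism which erases `#` and replaces the letter `t` by the word `h t` -/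
def hom {T : Type} (h : T → List S) (x : List (Option T)) : List S :=
  x.flatMap (fun o => o.elim [] h)

end Pool.Agent.R538.SR
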