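import Pool.Agent.R538.SR.UpMain

/-!
# From self-regulating automata to intersections with `E n`
-/

namespace Pool.Agent.R538.SR

variable {S : Type}

/-- states of the control -/
inductive Ct (P : Type)
  | st : Option P → Ct P
  | a : P → Ct P
  | e : P → Ct P
  | b : P → Ct P
  | dead : Ct P

instance {P : Type} [Finite P] : Finite (Ct P) :=
  Finite.of_injective (β := Fin 5 × Option P) (fun
    | .st o => (0, o)
    | .a p => (1, some p)
    | .e p => (2, some p)
    | .b p => (3, some p)
    | .dead => (4, none)) (by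
      intro x y h
      cases x <;> cases y <;> simp_all)

variable (M : PDA S) (qt : M.Q) (R : M.P → M.P → Prop)

open Classical in
/-- the control -/
noncomputable def step : Ct M.P → Option M.P → Ct M.P
  | .st none, some r => if M.dst r = qt then .e r else .a r
  | .a f, some r => if M.dst r = qt then .e f else .a f
  | .e f, none => .st (some f)
  | .st (some g), some r => if R g r then .b r else .dead
  | .b f, some _ => .b f
  | .b f, none => .st (some f)
  | _, _ => .dead

/-- the real-time automaton for the sequences of rules, with `#` between the blocks -/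
noncomputable def dn : PDA (Option M.P) where
  Q := M.Q × Ct M.P
  G := M.G
  P := (Ct M.P × M.P) ⊕ (Ct M.P × (M.Q × M.G))
  finQ := by
    have := M.finQ
    have := M.finP
    infer_instance
  finG := M.finG
  finP := by
    have := M.finQ
    have := M.finG
    have := M.finP
    infer_instance
  pop := Sum.elim (fun x => M.pop x.2) (fun x => x.2.2)
  src := Sum.elim (fun x => (M.src x.2, x.1)) (fun x => (x.2.1, x.1))
  read := Sum.elim (fun x => [some x.2]) (fun _ => [none])
  push := Sum.elim (fun x => M.push x.2) (fun x => [x.2.2])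
  dst := Sum.elim (fun x => (M.dst x.2, step M qt R x.1 (some x.2)))
    (fun x => (x.2.1, step M qt R x.1 none))
  q0 := (M.q0, .st none)
  Z0 := M.Z0
  F := {x | x.1 ∈ M.F ∧ ∃ p, x.2 = .b p}

/-- computations with the marks `#` -/
def MR : M.Q × List M.G → List (Option M.P) → M.Q × List M.G → Prop
  | c, [], c' => c = c'
  | c, some r :: x, c' => ∃ s, c = (M.src r, M.pop r :: s) ∧ MR (M.dst r, M.push r ++ s) x c'
  | c, none :: x, c' => c.2 ≠ [] ∧ MR c x c'

variable {M qt R}

theorem dn_run : ∀ (x : List (Option M.P)) (q q' : M.Q) (c c' : Ct M.P) (s s' : List M.G),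
    (∃ m, Run (dn M qt R) ((q, c), s) m ((q', c'), s') ∧ x = m.flatMap (dn M qt R).read) ↔
      (MR M (q, s) x (q', s') ∧ x.foldl (step M qt R) c = c')
  | [], q, q', c, c', s, s' => by
    constructor
    · rintro ⟨m, h1, h2⟩
      match m, h1, h2 with
      | [], h1, _ =>
        have h3 : ((q, c), s) = ((q', c'), s') := h1
        simp only [Prod.mk.injEq] at h3
        obtain ⟨⟨rfl, rfl⟩, rfl⟩ := h3
        exact ⟨rfl, rfl⟩
      | Sum.inl _ :: m, _, h2 => exact absurd h2 (by simp [dn])
      | Sum.inr _ :: m, _, h2 => exact absurd h2 (by simp [dn])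
    · rintro ⟨h1, rfl⟩
      have h3 : (q, s) = (q', s') := h1
      simp only [Prod.mk.injEq] at h3
      obtain ⟨rfl, rfl⟩ := h3
      exact ⟨[], rfl, rfl⟩
  | some r :: x, q, q', c, c', s, s' => by
    constructor
    · rintro ⟨m, h1, h2⟩
      match m, h1, h2 with
      | [], _, h2 => simp at h2
      | Sum.inr _ :: m, _, h2 =>
        have h3 : some r :: x = none :: m.flatMap (dn M qt R).read := h2
        simp at h3
      | Sum.inl (c1, r1) :: m, h1, h2 =>
        have h3 : some r :: x = some r1 :: m.flatMap (dn M qt R).read := h2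
        rw [List.cons.injEq, Option.some.injEq] at h3
        obtain ⟨rfl, h3⟩ := h3
        obtain ⟨(t : List M.G), h4, h5⟩ := h1
        have h6 : ((q, c), s) = ((M.src r, c1), M.pop r :: t) := h4
        simp only [Prod.mk.injEq] at h6
        obtain ⟨⟨rfl, rfl⟩, rfl⟩ := h6
        have h7 := (dn_run x (M.dst r) q' (step M qt R c (some r)) c' (M.push r ++ t) s').1
          ⟨m, h5, h3⟩
        exact ⟨⟨t, rfl, h7.1⟩, h7.2⟩
    · rintro ⟨⟨t, h1, h2⟩, h3⟩
      simp only [Prod.mk.injEq] at h1
      obtain ⟨rfl, rfl⟩ := h1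
      obtain ⟨m, h4, h5⟩ := (dn_run x (M.dst r) q' (step M qt R c (some r)) c'
        (M.push r ++ t) s').2 ⟨h2, h3⟩
      refine ⟨Sum.inl (c, r) :: m, ⟨t, rfl, h4⟩, ?_⟩
      rw [h5]
      rfl
  | none :: x, q, q', c, c', s, s' => by
    constructor
    · rintro ⟨m, h1, h2⟩
      match m, h1, h2 with
      | [], _, h2 => simp at h2
      | Sum.inl _ :: m, _, h2 =>
        have h3 : none :: x = some _ :: m.flatMap (dn M qt R).read := h2
        simp at h3
      | Sum.inr (c1, q1, Z) :: m, h1, h2 =>
        have h3 : none :: x = none :: m.flatMap (dn M qt R).read := h2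
        rw [List.cons.injEq] at h3
        obtain ⟨_, h3⟩ := h3
        obtain ⟨(t : List M.G), h4, h5⟩ := h1
        have h6 : ((q, c), s) = ((q1, c1), Z :: t) := h4
        simp only [Prod.mk.injEq] at h6
        obtain ⟨⟨rfl, rfl⟩, rfl⟩ := h6
        have h7 := (dn_run x q q' (step M qt R c none) c' (Z :: t) s').1 ⟨m, h5, h3⟩
        exact ⟨⟨by simp, h7.1⟩, h7.2⟩
    · rintro ⟨⟨h1, h2⟩, h3⟩
      match s, h1, h2 with
      | [], h1, _ => exact absurd rfl h1
      | Z :: t, _, h2 =>
        obtain ⟨m, h4, h5⟩ := (dn_run x q q' (step M qt R c none) c' (Z :: t) s').2 ⟨h2, h3⟩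
        refine ⟨Sum.inr (c, q, Z) :: m, ⟨t, rfl, h4⟩, ?_⟩
        rw [h5]
        rfl

theorem run_append : ∀ (m m' : List M.P) (c c' : M.Q × List M.G),
    Run M c (m ++ m') c' ↔ ∃ d, Run M c m d ∧ Run M d m' c'
  | [], m', c, c' => by
    constructor
    · intro h
      exact ⟨c, rfl, h⟩
    · rintro ⟨d, h1, h2⟩
      have h3 : c = d := h1
      subst h3
      exact h2
  | r :: m, m', c, c' => by
    constructor
    · rintro ⟨s, h1, h2⟩
      obtain ⟨d, h3, h4⟩ := (run_append m m' _ _).1 h2
      exact ⟨d, ⟨s, h1, h3⟩, h4⟩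
    · rintro ⟨d, ⟨s, h1, h3⟩, h4⟩
      exact ⟨s, h1, (run_append m m' _ _).2 ⟨d, h3, h4⟩⟩

theorem mr_append : ∀ (b : List M.P) (x : List (Option M.P)) (c c' : M.Q × List M.G),
    MR M c (b.map some ++ x) c' ↔ ∃ d, Run M c b d ∧ MR M d x c'
  | [], x, c, c' => by
    constructor
    · intro h
      exact ⟨c, rfl, h⟩
    · rintro ⟨d, h1, h2⟩
      have h3 : c = d := h1
      subst h3
      exact h2
  | r :: b, x, c, c' => by
    constructor
    · rintro ⟨s, h1, h2⟩
      obtain ⟨d, h3, h4⟩ := (mr_append b x _ _).1 h2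
      exact ⟨d, ⟨s, h1, h3⟩, h4⟩
    · rintro ⟨d, ⟨s, h1, h3⟩, h4⟩
      exact ⟨s, h1, (mr_append b x _ _).2 ⟨d, h3, h4⟩⟩

theorem mr_jn : ∀ (B : List (List M.P)) (b : List M.P) (c c' : M.Q × List M.G),
    MR M c (jn b B) c' → Run M c (b ++ B.flatten) c'
  | [], b, c, c', h => by
    rw [jn] at h
    rw [← List.append_nil (b.map some), mr_append] at h
    obtain ⟨d, h1, h2⟩ := h
    rw [run_append]
    exact ⟨d, h1, h2⟩
  | b' :: B, b, c, c', h => by
    rw [jn, mr_append] at h
    obtain ⟨d, h1, h2⟩ := h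
    rw [run_append]
    exact ⟨d, h1, mr_jn B b' d c' h2.2⟩

theorem jn_mr : ∀ (B : List (List M.P)) (b : List M.P) (c c' : M.Q × List M.G),
    (∀ y ∈ B, y ≠ []) → Run M c (b ++ B.flatten) c' → MR M c (jn b B) c'
  | [], b, c, c', _, h => by
    rw [run_append] at h
    obtain ⟨d, h1, h2⟩ := h
    rw [jn, ← List.append_nil (b.map some), mr_append]
    exact ⟨d, h1, h2⟩
  | b' :: B, b, c, c', hB, h => by
    rw [run_append] at h
    obtain ⟨d, h1, h2⟩ := h
    rw [jn, mr_append]
    refine ⟨d, h1, ?_, jn_mr B b' d c' (fun y hy => hB y (List.mem_cons_of_mem _ hy)) h2⟩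
    have hb' := hB b' List.mem_cons_self
    match b', hb', h2 with
    | [], hb', _ => exact absurd rfl hb'
    | r :: b', _, h2 =>
      obtain ⟨s, h3, _⟩ := h2
      rw [h3]
      simp

theorem hom_jn (h : M.P → List S) : ∀ (B : List (List M.P)) (b : List M.P),
    hom h (jn b B) = (b ++ B.flatten).flatMap h
  | [], b => by
    rw [jn]
    simp [hom, List.flatMap_map]
  | b' :: B, b => by
    have h1 := hom_jn h B b'
    unfold hom at h1 ⊢
    rw [jn, List.flatMap_append, List.flatMap_cons, h1, List.flatten_cons]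
    simp [List.flatMap_map]

/-! ### The control -/

theorem foldl_dead (x : List (Option M.P)) : x.foldl (step M qt R) .dead = .dead := by
  induction x with
  | nil => rfl
  | cons o x ih =>
    rw [List.foldl_cons]
    have : step M qt R .dead o = .dead := by cases o <;> rfl
    rw [this, ih]

theorem foldl_b (g : M.P) (x : List M.P) :
    (x.map some).foldl (step M qt R) (.b g) = .b g := by
  induction x with
  | nil => rfl
  | cons o x ih =>
    rw [List.map_cons, List.foldl_cons]
    exact ih

/-- the first rules of the following blocks -/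
def Ch (R : M.P → M.P → Prop) : M.P → List (List M.P) → Prop
  | _, [] => True
  | g, b :: B => ∃ r b', b = r :: b' ∧ R g r ∧ Ch R r B

theorem chain_ch : ∀ (B : List (List M.P)) (g : M.P) (b : List M.P),
    ((g :: b) :: B).IsChain (fun b b' => ∃ r ∈ b.head?, ∃ r' ∈ b'.head?, R r r') ↔ Ch R g B
  | [], g, b => by simp [Ch]
  | c :: B, g, b => by
    rw [List.isChain_cons_cons]
    constructor
    · rintro ⟨⟨r, hr, r', hr', h⟩, h2⟩
      have hr1 : g = r := by simpa using hr
      subst hr1
      cases c with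
      | nil => simp at hr'
      | cons c0 c =>
        have hr2 : c0 = r' := by simpa using hr'
        subst hr2
        exact ⟨c0, c, rfl, h, (chain_ch B c0 c).1 h2⟩
    · rintro ⟨r, c', rfl, h, h2⟩
      exact ⟨⟨g, rfl, r, rfl, h⟩, (chain_ch B r c').2 h2⟩

theorem foldl_st : ∀ (B : List (List M.P)) (g : M.P) (b : List M.P),
    (∃ p, (jn b B).foldl (step M qt R) (.st (some g)) = .b p) ↔ Ch R g (b :: B)
  | B, g, [] => by
    constructor
    · rintro ⟨p, hp⟩
      cases B with
      | nil => cases hp
      | cons b' B =>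
        have h1 : (jn [] (b' :: B)).foldl (step M qt R) (.st (some g)) =
          (jn b' B).foldl (step M qt R) .dead := rfl
        rw [h1, foldl_dead] at hp
        cases hp
    · rintro ⟨r, b', h, _⟩
      cases h
  | B, g, r :: b => by
    classical
    have h1 : (jn (r :: b) B).foldl (step M qt R) (.st (some g)) =
        (jn b B).foldl (step M qt R) (if R g r then .b r else .dead) := by
      cases B <;> rfl
    rw [h1]
    by_cases hR : R g r
    · rw [if_pos hR]
      cases B with
      | nil =>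
        rw [jn, foldl_b]
        exact ⟨fun _ => ⟨r, b, rfl, hR, trivial⟩, fun _ => ⟨r, rfl⟩⟩
      | cons b' B =>
        rw [jn, List.foldl_append, foldl_b, List.foldl_cons]
        have h2 : step M qt R (.b r) none = .st (some r) := rfl
        rw [h2, foldl_st B r b']
        constructor
        · intro h
          exact ⟨r, b, rfl, hR, h⟩
        · rintro ⟨r', b'', h, _, h3⟩
          rw [List.cons.injEq] at h
          rw [h.1]
          exact h3
    · rw [if_neg hR, foldl_dead]
      constructor
      · rintro ⟨p, hp⟩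
        cases hp
      · rintro ⟨r', b', h, h3, _⟩
        rw [List.cons.injEq] at h
        rw [← h.1] at h3
        exact absurd h3 hR
termination_by B _ b => (B.length, b.length)

/-- the condition on the turn state -/
def Tu (qt : M.Q) (b : List M.P) : Prop :=
  ∃ m r, b = m ++ [r] ∧ M.dst r = qt ∧ ∀ r' ∈ m, M.dst r' ≠ qt

theorem tu_cons {r : M.P} {b : List M.P} :
    Tu qt (r :: b) ↔ (M.dst r = qt ∧ b = []) ∨ (M.dst r ≠ qt ∧ Tu qt b) := by
  constructor
  · rintro ⟨m, r', h1, h2, h3⟩
    cases m with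
    | nil =>
      rw [List.nil_append, List.cons.injEq] at h1
      exact Or.inl ⟨by rw [h1.1]; exact h2, h1.2⟩
    | cons a m =>
      rw [List.cons_append, List.cons.injEq] at h1
      refine Or.inr ⟨?_, m, r', h1.2, h2, fun r' hr' => h3 r' (List.mem_cons_of_mem _ hr')⟩
      rw [h1.1]
      exact h3 a List.mem_cons_self
  · rintro (⟨h1, rfl⟩ | ⟨h1, m, r', rfl, h2, h3⟩)
    · exact ⟨[], r, rfl, h1, by simp⟩
    · refine ⟨r :: m, r', rfl, h2, ?_⟩
      intro x hx
      rcases List.mem_cons.1 hx with rfl | hx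
      · exact h1
      · exact h3 x hx

theorem foldl_e (f : M.P) (b : List M.P) (x : List (Option M.P)) :
    (∃ g, (b.map some ++ none :: x).foldl (step M qt R) (.e f) = .b g) ↔
      b = [] ∧ ∃ g, x.foldl (step M qt R) (.st (some f)) = .b g := by
  cases b with
  | nil =>
    simp only [List.map_nil, List.nil_append, List.foldl_cons, true_and]
    rfl
  | cons r b =>
    constructor
    · rintro ⟨g, h⟩
      rw [List.map_cons, List.cons_append, List.foldl_cons] at h
      have : step M qt R (.e f) (some r) = .dead := rfl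
      rw [this, foldl_dead] at h
      cases h
    · rintro ⟨h, _⟩
      cases h

theorem foldl_a (f : M.P) : ∀ (b : List M.P) (x : List (Option M.P)),
    (∃ g, (b.map some ++ none :: x).foldl (step M qt R) (.a f) = .b g) ↔
      Tu qt b ∧ ∃ g, x.foldl (step M qt R) (.st (some f)) = .b g
  | [], x => by
    constructor
    · rintro ⟨g, h⟩
      have h1 : ((([] : List M.P).map some) ++ none :: x).foldl (step M qt R) (.a f) =
        x.foldl (step M qt R) .dead := rfl
      rw [h1, foldl_dead] at h
      cases h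
    · rintro ⟨⟨m, r, h, _⟩, _⟩
      simp at h
  | r :: b, x => by
    classical
    rw [List.map_cons, List.cons_append, tu_cons]
    simp only [List.foldl_cons]
    have h1 : step M qt R (.a f) (some r) = if M.dst r = qt then .e f else .a f := rfl
    rw [h1]
    by_cases hq : M.dst r = qt
    · rw [if_pos hq, foldl_e]
      simp [hq]
    · rw [if_neg hq, foldl_a f b x]
      simp [hq]

/-- the first block -/
theorem foldl_first (B : List (List M.P)) (b b' : List M.P) :
    (∃ g, (jn b (b' :: B)).foldl (step M qt R) (.st none) = .b g) ↔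
      Tu qt b ∧ ∃ f c, b = f :: c ∧ Ch R f (b' :: B) := by
  rw [jn]
  cases b with
  | nil =>
    constructor
    · rintro ⟨g, h⟩
      have h1 : ((([] : List M.P).map some) ++ none :: jn b' B).foldl (step M qt R)
        (.st none) = (jn b' B).foldl (step M qt R) .dead := rfl
      rw [h1, foldl_dead] at h
      cases h
    · rintro ⟨_, f, c, h, _⟩
      cases h
  | cons r b =>
    classical
    rw [List.map_cons, List.cons_append, tu_cons]
    simp only [List.foldl_cons]
    have h1 : step M qt R (.st none) (some r) = if M.dst r = qt then .e r else .a r := rfl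
    rw [h1]
    have h2 : (∃ f c, r :: b = f :: c ∧ Ch R f (b' :: B)) ↔ Ch R r (b' :: B) := by
      constructor
      · rintro ⟨f, c, h, h'⟩
        rw [List.cons.injEq] at h
        rw [h.1]
        exact h'
      · intro h
        exact ⟨r, b, rfl, h⟩
    rw [h2]
    by_cases hq : M.dst r = qt
    · rw [if_pos hq, foldl_e, foldl_st]
      simp [hq]
    · rw [if_neg hq, foldl_a, foldl_st]
      simp [hq]

theorem ch_ne : ∀ (B : List (List M.P)) (g : M.P), Ch R g B → ∀ y ∈ B, y ≠ []
  | [], _, _, y, hy => by simp at hy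
  | b :: B, g, h, y, hy => by
    obtain ⟨r, b', rfl, _, h2⟩ := h
    rcases List.mem_cons.1 hy with rfl | hy
    · simp
    · exact ch_ne B r h2 y hy

theorem dn_main (n : ℕ) (hn : 1 ≤ n) {L : Set (List S)} (hL : FSPDA n L) :
    ∃ (T : Type) (_ : Finite T) (K : Set (List (Option T))) (h : T → List S), RealTime K ∧
      L = {w | ∃ x ∈ K, x ∈ E n T ∧ w = hom h x} := by
  obtain ⟨M, qt, R, rfl⟩ := hL
  refine ⟨M.P, M.finP, lang (dn M qt R), M.read, ⟨dn M qt R, ?_, rfl⟩, ?_⟩
  · rintro (r | r)
    · rfl
    · rfl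
  · ext w
    constructor
    · rintro ⟨B, ⟨hB1, ⟨k, hk, hB2⟩, ⟨m, r, B', hB3, hr, hm⟩, hB4⟩, ⟨f, hf, hrun⟩, rfl⟩
      subst hB3
      match B', hB1, hB2, hB4, hrun with
      | [], hB1, _, _, _ =>
        simp at hB1
        omega
      | b' :: B, hB1, hB2, hB4, hrun =>
        have hTu : Tu qt (m ++ [r]) := ⟨m, r, rfl, hr, hm⟩
        obtain ⟨a, b, hab⟩ : ∃ a b, m ++ [r] = a :: b := by
          cases m with
          | nil => exact ⟨_, _, rfl⟩
          | cons a m => exact ⟨_, _, rfl⟩
        rw [hab] at hB1 hB2 hB4 hrun hTu ⊢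
        have hch := (chain_ch _ _ _).1 hB4
        obtain ⟨g, hg⟩ := (foldl_first (R := R) B (a :: b) b').2 ⟨hTu, a, b, rfl, hch⟩
        have hmr := jn_mr (b' :: B) (a :: b) _ _ (ch_ne _ _ hch)
          (by rw [List.flatten_cons] at hrun; exact hrun)
        obtain ⟨μ, h1, h2⟩ := (dn_run (qt := qt) (R := R) (jn (a :: b) (b' :: B)) M.q0 f
          (.st none) (.b g) [M.Z0] []).2 ⟨hmr, hg⟩
        refine ⟨jn (a :: b) (b' :: B), ⟨μ, ⟨(f, .b g), ⟨hf, g, rfl⟩, h1⟩, h2⟩,
          ⟨(a :: b) :: b' :: B, k, hB1, hB2, (jn_eq _ _).symm⟩, ?_⟩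
        rw [hom_jn, List.flatten_cons]
    · rintro ⟨x, ⟨μ, ⟨⟨f, c⟩, ⟨hf, g, hg⟩, h1⟩, h2⟩, ⟨X, k, hX, hk, hx⟩, rfl⟩
      match X, hX, hk, hx with
      | [], hX, _, _ => simp at hX
      | [_], hX, _, _ =>
        simp at hX
        omega
      | b :: b' :: B, hX, hk, hx =>
        rw [jn_eq] at hx
        have hg' : c = .b g := hg
        subst hg'
        obtain ⟨h3, h4⟩ := (dn_run (qt := qt) (R := R) x M.q0 f (.st none) (.b g)
          [M.Z0] []).1 ⟨μ, h1, h2⟩
        subst hx
        obtain ⟨hTu, a, b0, rfl, hch⟩ := (foldl_first B b b').1 ⟨g, h4⟩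
        refine ⟨(a :: b0) :: b' :: B, ⟨hX, ⟨k, ?_, hk⟩, ?_, (chain_ch _ _ _).2 hch⟩,
          ⟨f, hf, ?_⟩, ?_⟩
        · have := hk _ List.mem_cons_self
          rw [List.length_cons] at this
          omega
        · obtain ⟨m, r, h5, h6, h7⟩ := hTu
          exact ⟨m, r, b' :: B, by rw [h5], h6, h7⟩
        · rw [List.flatten_cons]
          exact mr_jn _ _ _ _ h3
        · rw [hom_jn, List.flatten_cons (l := a :: b0)]

end Pool.Agent.R538.SR
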