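import Pool.Agent.R538.SR.Defs

/-!
# From intersections with `E n` to self-regulating automata
-/

namespace Pool.Agent.R538.SR

variable {S T : Type}

/-- pushdown symbols of the new automaton -/
inductive Sy (A B : Type)
  | bot : Sy A B
  | g : A → Sy A B
  | st : B → Sy A B

/-- states of the new automaton -/
inductive Stt (B : Type)
  | ini : Stt B
  | run : B → Stt B
  | turn : Stt B
  | fin : Stt B

/-- rules of the new automaton -/
inductive Ru (J P Q : Type)
  | ini : Ru J P Q
  | nr : J → P → Ru J P Q
  | d : J × Q → Ru J P Q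
  | fi : Q → Ru J P Q

instance {A B : Type} [Finite A] [Finite B] : Finite (Sy A B) :=
  Finite.of_injective (β := Option (A ⊕ B)) (fun
    | .bot => none
    | .g a => some (Sum.inl a)
    | .st b => some (Sum.inr b)) (by
      intro x y h
      cases x <;> cases y <;> simp_all)

instance {B : Type} [Finite B] : Finite (Stt B) :=
  Finite.of_injective (β := Fin 3 ⊕ B) (fun
    | .ini => Sum.inl 0
    | .run b => Sum.inr b
    | .turn => Sum.inl 1
    | .fin => Sum.inl 2) (by
      intro x y h
      cases x <;> cases y <;> simp_all)

instance {J P Q : Type} [Finite J] [Finite P] [Finite Q] : Finite (Ru J P Q) :=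
  Finite.of_injective (β := Option ((J × P) ⊕ ((J × Q) ⊕ Q))) (fun
    | .ini => none
    | .nr j p => some (Sum.inl (j, p))
    | .d x => some (Sum.inr (Sum.inl x))
    | .fi q => some (Sum.inr (Sum.inr q))) (by
      intro x y h
      cases x <;> cases y <;> simp_all)

/-- next phase -/
def nx {n : ℕ} (j : Fin (n + 2)) : Fin (n + 2) := ⟨min (j.1 + 1) (n + 1), by omega⟩

variable (N : PDA (Option T)) (rd : N.P → Option T) (h : T → List S) (n : ℕ)

open Classical in
/-- the new automaton -/
noncomputable def up : PDA S where
  Q := Stt (Fin (n + 2) × N.Q)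
  G := Sy N.G (Fin (n + 2) × N.Q)
  P := Ru (Fin (n + 2)) N.P N.Q
  finQ := by
    have := N.finQ
    infer_instance
  finG := by
    have := N.finQ
    have := N.finG
    infer_instance
  finP := by
    have := N.finQ
    have := N.finP
    infer_instance
  pop
    | .ini => .bot
    | .nr _ r => .g (N.pop r)
    | .d x => .st x
    | .fi _ => .bot
  src
    | .ini => .ini
    | .nr j r => .run (j, N.src r)
    | .d _ => .turn
    | .fi q => .run (⟨n, by omega⟩, q)
  read
    | .ini => []
    | .nr _ r => (rd r).elim [] h
    | .d _ => []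
    | .fi _ => []
  push
    | .ini => [.g N.Z0, .bot]
    | .nr j r => (rd r).elim (.st (nx j, N.dst r) :: (N.push r).map .g)
        (fun _ => (N.push r).map .g)
    | .d _ => []
    | .fi _ => []
  dst
    | .ini => .run (⟨0, by omega⟩, N.q0)
    | .nr j r => (rd r).elim .turn (fun _ => .run (j, N.dst r))
    | .d x => .run x
    | .fi q => if q ∈ N.F then .fin else .ini
  q0 := .ini
  Z0 := .bot
  F := {.fin}

/-- configurations -/
def cfg (q : Stt (Fin (n + 2) × N.Q)) (s : List (Sy N.G (Fin (n + 2) × N.Q))) :
    (up N rd h n).Q × List (up N rd h n).G := (q, s)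

/-- the rules of a computation in phase `j` -/
def enc (f : N.Q) : Fin (n + 2) → List N.P → List (Ru (Fin (n + 2)) N.P N.Q)
  | _, [] => [.fi f]
  | j, r :: u => match rd r with
    | some _ => .nr j r :: enc f j u
    | none => .nr j r :: .d (nx j, N.dst r) :: enc f (nx j) u

/-- number of letters `#` -/
def cnt : List N.P → ℕ
  | [] => 0
  | r :: u => match rd r with
    | some _ => cnt u
    | none => cnt u + 1

variable {N rd h n}

theorem run_nil_stack {M : PDA S} {q : M.Q} {m : List M.P} {c : M.Q × List M.G}
    (hr : Run M (q, []) m c) : m = [] := by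
  cases m with
  | nil => rfl
  | cons r m =>
    obtain ⟨s, hs, _⟩ := hr
    exact absurd (congrArg Prod.snd hs) (by simp)

/-- analysis of the computations -/
theorem up_run : ∀ (l : ℕ) (m : List (Ru (Fin (n + 2)) N.P N.Q)) (j : Fin (n + 2)) (q : N.Q)
    (s : List N.G), m.length ≤ l →
    Run (up N rd h n) (cfg N rd h n (.run (j, q)) (s.map .g ++ [.bot])) m
      (cfg N rd h n .fin []) →
    ∃ u f, f ∈ N.F ∧ Run N (q, s) u (f, []) ∧ m = enc N rd n f j u ∧
      cnt N rd u + j.1 = n := by
  classical
  intro l
  induction l with
  | zero =>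
    intro m j q s hl hr
    have : m = [] := List.length_eq_zero_iff.1 (by omega)
    subst this
    have h2 : (Stt.run (j, q) : Stt (Fin (n + 2) × N.Q)) = .fin := congrArg Prod.fst hr
    cases h2
  | succ l ih =>
    intro m j q s hl hr
    match m, hl, hr with
    | [], _, hr =>
      have h2 : (Stt.run (j, q) : Stt (Fin (n + 2) × N.Q)) = .fin := congrArg Prod.fst hr
      cases h2
    | .ini :: m, _, hr =>
      obtain ⟨_, h1, _⟩ := hr
      have h2 : (Stt.run (j, q) : Stt (Fin (n + 2) × N.Q)) = .ini := congrArg Prod.fst h1
      cases h2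
    | .d x :: m, _, hr =>
      obtain ⟨_, h1, _⟩ := hr
      have h2 : (Stt.run (j, q) : Stt (Fin (n + 2) × N.Q)) = .turn := congrArg Prod.fst h1
      cases h2
    | .fi f :: m, _, hr =>
      obtain ⟨t, h1, h3⟩ := hr
      have h2 : (Stt.run (j, q) : Stt (Fin (n + 2) × N.Q)) = .run (⟨n, by omega⟩, f) :=
        congrArg Prod.fst h1
      have h4 : s.map Sy.g ++ [Sy.bot] = (Sy.bot : Sy N.G (Fin (n + 2) × N.Q)) :: t :=
        congrArg Prod.snd h1
      have h5 : (j, q) = (⟨n, by omega⟩, f) := by injection h2
      have h6 : j = ⟨n, by omega⟩ := congrArg Prod.fst h5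
      have h7 : q = f := congrArg Prod.snd h5
      subst h7
      cases s with
      | cons a s => simp at h4
      | nil =>
        simp at h4
        subst h4
        have h8 := run_nil_stack (M := up N rd h n) (q := (up N rd h n).dst (.fi q)) h3
        subst h8
        have h9 : (up N rd h n).dst (.fi q) = Stt.fin := congrArg Prod.fst h3
        have h10 : q ∈ N.F := by
          by_contra hq
          change (if q ∈ N.F then Stt.fin else Stt.ini) = _ at h9
          rw [if_neg hq] at h9
          cases h9
        refine ⟨[], q, h10, rfl, rfl, ?_⟩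
        rw [h6]
        simp [cnt]
    | .nr i r :: m, hl, hr =>
      obtain ⟨t, h1, h3⟩ := hr
      have h2 : (Stt.run (j, q) : Stt (Fin (n + 2) × N.Q)) = .run (i, N.src r) :=
        congrArg Prod.fst h1
      have h4 : s.map Sy.g ++ [Sy.bot] = (Sy.g (N.pop r) : Sy N.G (Fin (n + 2) × N.Q)) :: t :=
        congrArg Prod.snd h1
      have h5 : (j, q) = (i, N.src r) := by injection h2
      have h6 : j = i := congrArg Prod.fst h5
      have h7 : q = N.src r := congrArg Prod.snd h5
      subst h6
      subst h7
      cases s with
      | nil => simp at h4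
      | cons a s =>
        simp only [List.map_cons, List.cons_append, List.cons.injEq, Sy.g.injEq] at h4
        obtain ⟨h8, h9⟩ := h4
        subst h8
        subst h9
        cases hrd : rd r with
        | some t =>
          have e1 : (up N rd h n).dst (.nr j r) = Stt.run (j, N.dst r) := by
            change (rd r).elim _ _ = _
            rw [hrd]
            rfl
          have e2 : (up N rd h n).push (.nr j r) = (N.push r).map Sy.g := by
            change (rd r).elim _ _ = _
            rw [hrd]
            rfl
          rw [e1, e2] at h3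
          have e3 : ((N.push r ++ s).map Sy.g ++ [Sy.bot] :
              List (Sy N.G (Fin (n + 2) × N.Q))) =
              (N.push r).map Sy.g ++ (s.map Sy.g ++ [Sy.bot]) := by simp
          have h10 : Run (up N rd h n) (cfg N rd h n (.run (j, N.dst r))
              ((N.push r ++ s).map Sy.g ++ [Sy.bot])) m (cfg N rd h n .fin []) := by
            rw [e3]
            exact h3
          obtain ⟨u, f, hf, h11, h12, h13⟩ := ih m j _ _ (by simpa using hl) h10
          refine ⟨r :: u, f, hf, ⟨s, rfl, h11⟩, ?_, ?_⟩
          · rw [enc, hrd, h12]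
          · rw [cnt, hrd]
            exact h13
        | none =>
          have e1 : (up N rd h n).dst (.nr j r) = Stt.turn := by
            change (rd r).elim _ _ = _
            rw [hrd]
            rfl
          have e2 : (up N rd h n).push (.nr j r) =
              Sy.st (nx j, N.dst r) :: (N.push r).map Sy.g := by
            change (rd r).elim _ _ = _
            rw [hrd]
            rfl
          rw [e1, e2] at h3
          have e3 : ((N.push r ++ s).map Sy.g ++ [Sy.bot] :
              List (Sy N.G (Fin (n + 2) × N.Q))) =
              (N.push r).map Sy.g ++ (s.map Sy.g ++ [Sy.bot]) := by simp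
          have h10 : Run (up N rd h n) (cfg N rd h n .turn (Sy.st (nx j, N.dst r) ::
              ((N.push r ++ s).map Sy.g ++ [Sy.bot]))) m (cfg N rd h n .fin []) := by
            rw [e3]
            exact h3
          match m, hl, h10 with
          | [], _, h10 =>
            have h2 : (Stt.turn : Stt (Fin (n + 2) × N.Q)) = .fin := congrArg Prod.fst h10
            cases h2
          | .ini :: m, _, h10 =>
            obtain ⟨_, h1, _⟩ := h10
            have h2 : (Stt.turn : Stt (Fin (n + 2) × N.Q)) = .ini := congrArg Prod.fst h1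
            cases h2
          | .nr _ _ :: m, _, h10 =>
            obtain ⟨_, h1, _⟩ := h10
            have h2 := congrArg Prod.fst h1
            cases h2
          | .fi _ :: m, _, h10 =>
            obtain ⟨_, h1, _⟩ := h10
            have h2 := congrArg Prod.fst h1
            cases h2
          | .d x :: m, hl, h10 =>
            obtain ⟨t, h1, h14⟩ := h10
            have h4 : (Sy.st (nx j, N.dst r) : Sy N.G (Fin (n + 2) × N.Q)) ::
              ((N.push r ++ s).map Sy.g ++ [Sy.bot]) = Sy.st x :: t := congrArg Prod.snd h1
            rw [List.cons.injEq, Sy.st.injEq] at h4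
            obtain ⟨h15, h16⟩ := h4
            subst h15
            subst h16
            obtain ⟨u, f, hf, h11, h12, h13⟩ := ih m (nx j) _ _ (by simp at hl; omega) h14
            refine ⟨r :: u, f, hf, ⟨s, rfl, h11⟩, ?_, ?_⟩
            · rw [enc, hrd, h12]
            · rw [cnt, hrd]
              have h17 : (nx j).1 = min (j.1 + 1) (n + 1) := rfl
              rw [h17] at h13
              change cnt N rd u + 1 + j.1 = n
              omega

theorem run_up {f : N.Q} (hf : f ∈ N.F) : ∀ (u : List N.P) (j : Fin (n + 2)) (q : N.Q)
    (s : List N.G), Run N (q, s) u (f, []) → cnt N rd u + j.1 = n →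
    Run (up N rd h n) (cfg N rd h n (.run (j, q)) (s.map .g ++ [.bot])) (enc N rd n f j u)
      (cfg N rd h n .fin []) := by
  classical
  intro u
  induction u with
  | nil =>
    intro j q s hr hc
    have h1 : q = f := congrArg Prod.fst hr
    have h2 : s = [] := congrArg Prod.snd hr
    subst h1
    subst h2
    have h3 : j = ⟨n, by omega⟩ := Fin.ext (by simpa [cnt] using hc)
    refine ⟨[], by rw [h3]; rfl, ?_⟩
    have h9 : (up N rd h n).dst (.fi q) = Stt.fin := by
      change (if q ∈ N.F then Stt.fin else Stt.ini) = _
      rw [if_pos hf]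
    rw [h9]
    rfl
  | cons r u ih =>
    intro j q s hr hc
    obtain ⟨s', h1, h2⟩ := hr
    have h3 : q = N.src r := congrArg Prod.fst h1
    have h4 : s = N.pop r :: s' := congrArg Prod.snd h1
    subst h3
    subst h4
    have e3 : ((N.push r ++ s').map Sy.g ++ [Sy.bot] :
        List (Sy N.G (Fin (n + 2) × N.Q))) =
        (N.push r).map Sy.g ++ (s'.map Sy.g ++ [Sy.bot]) := by simp
    cases hrd : rd r with
    | some t =>
      rw [cnt, hrd] at hc
      rw [enc, hrd]
      refine ⟨s'.map .g ++ [.bot], rfl, ?_⟩
      have e1 : (up N rd h n).dst (.nr j r) = Stt.run (j, N.dst r) := by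
        change (rd r).elim _ _ = _
        rw [hrd]
        rfl
      have e2 : (up N rd h n).push (.nr j r) = (N.push r).map Sy.g := by
        change (rd r).elim _ _ = _
        rw [hrd]
        rfl
      rw [e1, e2]
      have h10 := ih j _ _ h2 hc
      rw [e3] at h10
      exact h10
    | none =>
      rw [cnt, hrd] at hc
      change cnt N rd u + 1 + j.1 = n at hc
      rw [enc, hrd]
      refine ⟨s'.map .g ++ [.bot], rfl, ?_⟩
      have e1 : (up N rd h n).dst (.nr j r) = Stt.turn := by
        change (rd r).elim _ _ = _
        rw [hrd]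
        rfl
      have e2 : (up N rd h n).push (.nr j r) =
          Sy.st (nx j, N.dst r) :: (N.push r).map Sy.g := by
        change (rd r).elim _ _ = _
        rw [hrd]
        rfl
      rw [e1, e2]
      refine ⟨(N.push r).map .g ++ (s'.map .g ++ [.bot]), rfl, ?_⟩
      have h17 : (nx j).1 = min (j.1 + 1) (n + 1) := rfl
      have h10 := ih (nx j) _ _ h2 (by rw [h17]; omega)
      rw [e3] at h10
      exact h10

/-! ### Splitting -/

/-- blocks of the computation -/
def sp (N : PDA (Option T)) (rd : N.P → Option T) (n : ℕ) (f : N.Q) :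
    Fin (n + 2) → List N.P →
    List (Ru (Fin (n + 2)) N.P N.Q) × List (List (Ru (Fin (n + 2)) N.P N.Q))
  | _, [] => ([.fi f], [])
  | j, r :: u => match rd r with
    | some _ => (.nr j r :: (sp N rd n f j u).1, (sp N rd n f j u).2)
    | none => ([.nr j r], (.d (nx j, N.dst r) :: (sp N rd n f (nx j) u).1) ::
        (sp N rd n f (nx j) u).2)

/-- blocks of the word -/
def xsp (N : PDA (Option T)) (rd : N.P → Option T) : List N.P → List T × List (List T)
  | [] => ([], [])
  | r :: u => match rd r with
    | some t => (t :: (xsp N rd u).1, (xsp N rd u).2)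
    | none => ([], (xsp N rd u).1 :: (xsp N rd u).2)

/-- `x # x_1 # ... # x_m` -/
def jn : List T → List (List T) → List (Option T)
  | x, [] => x.map some
  | x, y :: X => x.map some ++ none :: jn y X

theorem jn_eq : ∀ (X : List (List T)) (x : List T),
    List.intercalate [none] ((x :: X).map (List.map some)) = jn x X
  | [], x => by simp [jn, List.intercalate]
  | y :: X, x => by
    rw [jn, ← jn_eq X y]
    simp [List.intercalate]

theorem enc_sp (f : N.Q) : ∀ (u : List N.P) (j : Fin (n + 2)),
    enc N rd n f j u = (sp N rd n f j u).1 ++ (sp N rd n f j u).2.flatten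
  | [], j => by simp [enc, sp]
  | r :: u, j => by
    cases hrd : rd r with
    | some t =>
      rw [enc, sp, hrd, enc_sp f u j]
      rfl
    | none =>
      rw [enc, sp, hrd, enc_sp f u (nx j)]
      simp

theorem sp_len (f : N.Q) : ∀ (u : List N.P) (j : Fin (n + 2)),
    (sp N rd n f j u).1.length = (xsp N rd u).1.length + 1
  | [], j => by simp [xsp, sp]
  | r :: u, j => by
    cases hrd : rd r with
    | some t =>
      rw [sp, xsp, hrd]
      simp [sp_len f u j]
    | none =>
      rw [sp, xsp, hrd]
      simp

theorem sp_lens (f : N.Q) : ∀ (u : List N.P) (j : Fin (n + 2)),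
    (sp N rd n f j u).2.map List.length = (xsp N rd u).2.map (fun x => x.length + 2)
  | [], j => by simp [xsp, sp]
  | r :: u, j => by
    cases hrd : rd r with
    | some t =>
      rw [sp, xsp, hrd]
      exact sp_lens f u j
    | none =>
      rw [sp, xsp, hrd]
      simp only [List.map_cons, List.length_cons, sp_len f u (nx j), sp_lens f u (nx j)]

theorem xsp_cnt : ∀ u : List N.P, (xsp N rd u).2.length = cnt N rd u
  | [] => rfl
  | r :: u => by
    cases hrd : rd r with
    | some t =>
      rw [xsp, cnt, hrd]
      exact xsp_cnt u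
    | none =>
      rw [xsp, cnt, hrd]
      simp [xsp_cnt u]

theorem xsp_jn : ∀ u : List N.P, u.map rd = jn (xsp N rd u).1 (xsp N rd u).2
  | [] => rfl
  | r :: u => by
    cases hrd : rd r with
    | some t =>
      rw [List.map_cons, xsp, hrd, xsp_jn u]
      cases (xsp N rd u).2 <;> rfl
    | none =>
      rw [List.map_cons, xsp, hrd, xsp_jn u]
      rfl

theorem jn_xsp : ∀ (u : List N.P) (x : List T) (X : List (List T)), u.map rd = jn x X →
    xsp N rd u = (x, X)
  | [], x, X, h => by
    cases X with
    | nil =>
      have : x = [] := by simpa [jn] using h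
      rw [this]
      rfl
    | cons y X => simp [jn] at h
  | r :: u, x, X, h => by
    rw [List.map_cons] at h
    cases hrd : rd r with
    | some t =>
      rw [hrd] at h
      cases x with
      | nil => cases X with
        | nil => simp [jn] at h
        | cons y X => simp [jn] at h
      | cons t' x =>
        have h1 : t = t' ∧ u.map rd = jn x X := by
          cases X with
          | nil => simpa [jn] using h
          | cons y X => simpa [jn] using h
        obtain ⟨rfl, h2⟩ := h1
        rw [xsp, hrd, jn_xsp u x X h2]
    | none =>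
      rw [hrd] at h
      cases x with
      | nil => cases X with
        | nil => simp [jn] at h
        | cons y X =>
          have h2 : u.map rd = jn y X := by simpa [jn] using h
          rw [xsp, hrd, jn_xsp u y X h2]
      | cons t' x => cases X <;> simp [jn] at h

/-- the first rules of the blocks -/
def Hd : Fin (n + 2) → List (List (Ru (Fin (n + 2)) N.P N.Q)) → Prop
  | _, [] => True
  | j, b :: B => (∃ q b', b = .d (nx j, q) :: b') ∧ Hd (nx j) B

theorem sp_hd (f : N.Q) : ∀ (u : List N.P) (j : Fin (n + 2)), Hd j (sp N rd n f j u).2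
  | [], j => trivial
  | r :: u, j => by
    cases hrd : rd r with
    | some t =>
      rw [sp, hrd]
      exact sp_hd f u j
    | none =>
      rw [sp, hrd]
      exact ⟨⟨_, _, rfl⟩, sp_hd f u (nx j)⟩

theorem d_mem (f : N.Q) : ∀ (u : List N.P) (j : Fin (n + 2)), cnt N rd u + j.1 ≤ n →
    ∀ i q, Ru.d (i, q) ∈ enc N rd n f j u → j.1 < i.1
  | [], j, _, i, q, h => by simp [enc] at h
  | r :: u, j, hc, i, q, h => by
    cases hrd : rd r with
    | some t =>
      rw [enc, hrd] at h
      rw [cnt, hrd] at hc
      rcases List.mem_cons.1 h with h | h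
      · cases h
      · exact d_mem f u j hc i q h
    | none =>
      rw [enc, hrd] at h
      rw [cnt, hrd] at hc
      change cnt N rd u + 1 + j.1 ≤ n at hc
      have h17 : (nx j).1 = min (j.1 + 1) (n + 1) := rfl
      rcases List.mem_cons.1 h with h | h
      · cases h
      · rcases List.mem_cons.1 h with h | h
        · have h1 : (i, q) = (nx j, N.dst r) := by injection h
          have h2 : i = nx j := congrArg Prod.fst h1
          rw [h2, h17]
          omega
        · have := d_mem f u (nx j) (by rw [h17]; omega) i q h
          omega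

theorem sp_unique (f : N.Q) : ∀ (u : List N.P) (j : Fin (n + 2))
    (b : List (Ru (Fin (n + 2)) N.P N.Q)) (B : List (List (Ru (Fin (n + 2)) N.P N.Q))),
    cnt N rd u + j.1 ≤ n → enc N rd n f j u = b ++ B.flatten → Hd j B →
    B.length = cnt N rd u → sp N rd n f j u = (b, B)
  | [], j, b, B, _, h, _, hl => by
    have : B = [] := List.length_eq_zero_iff.1 hl
    subst this
    have h1 : [Ru.fi f] = b := by simpa [enc] using h
    rw [← h1]
    rfl
  | r :: u, j, b, B, hc, h, hH, hl => by
    have hb : b ≠ [] := by
      rintro rfl
      cases B with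
      | nil =>
        cases hrd : rd r with
        | some t => rw [enc, hrd] at h; simp at h
        | none => rw [enc, hrd] at h; simp at h
      | cons b' B =>
        obtain ⟨⟨q, b'', rfl⟩, _⟩ := hH
        cases hrd : rd r with
        | some t => rw [enc, hrd] at h; simp at h
        | none => rw [enc, hrd] at h; simp at h
    cases b with
    | nil => exact absurd rfl hb
    | cons ρ b =>
      cases hrd : rd r with
      | some t =>
        rw [enc, hrd, List.cons_append, List.cons.injEq] at h
        rw [cnt, hrd] at hc hl
        rw [sp, hrd, sp_unique f u j b B hc h.2 hH hl, ← h.1]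
      | none =>
        rw [enc, hrd, List.cons_append, List.cons.injEq] at h
        rw [cnt, hrd] at hc hl
        change cnt N rd u + 1 + j.1 ≤ n at hc
        change B.length = cnt N rd u + 1 at hl
        have h17 : (nx j).1 = min (j.1 + 1) (n + 1) := rfl
        cases B with
        | nil => simp at hl
        | cons b' B =>
          obtain ⟨⟨q, b'', rfl⟩, hH'⟩ := hH
          cases b with
          | nil =>
            have h2 := h.2
            rw [List.nil_append, List.flatten_cons, List.cons_append, List.cons.injEq] at h2
            rw [sp, hrd, sp_unique f u (nx j) b'' B (by rw [h17]; omega) h2.2 hH'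
              (by simpa using hl), ← h.1, h2.1]
          | cons ρ' b =>
            have h2 := h.2
            rw [List.cons_append, List.cons.injEq] at h2
            have h3 : Ru.d (nx j, q) ∈ enc N rd n f (nx j) u := by
              rw [h2.2]
              simp
            have := d_mem f u (nx j) (by rw [h17]; omega) _ _ h3
            omega

theorem enc_some {f : N.Q} {j : Fin (n + 2)} {r : N.P} {u : List N.P} {t : T}
    (hrd : rd r = some t) : enc N rd n f j (r :: u) = .nr j r :: enc N rd n f j u := by
  rw [enc, hrd]

theorem enc_none {f : N.Q} {j : Fin (n + 2)} {r : N.P} {u : List N.P}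
    (hrd : rd r = none) : enc N rd n f j (r :: u) =
      .nr j r :: .d (nx j, N.dst r) :: enc N rd n f (nx j) u := by
  rw [enc, hrd]

theorem enc_read (f : N.Q) : ∀ (u : List N.P) (j : Fin (n + 2)),
    (enc N rd n f j u).flatMap (up N rd h n).read = hom h (u.map rd)
  | [], j => rfl
  | r :: u, j => by
    cases hrd : rd r with
    | some t =>
      have h1 := enc_read f u j
      rw [enc_some hrd, List.map_cons, hrd]
      change (up N rd h n).read (.nr j r) ++ (enc N rd n f j u).flatMap (up N rd h n).read = _
      have e : (up N rd h n).read (.nr j r) = h t := by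
        change (rd r).elim _ _ = _
        rw [hrd]
        rfl
      rw [h1, e]
      rfl
    | none =>
      have h1 := enc_read f u (nx j)
      rw [enc_none hrd, List.map_cons, hrd]
      change (up N rd h n).read (.nr j r) ++
        ([] ++ (enc N rd n f (nx j) u).flatMap (up N rd h n).read) = _
      have e : (up N rd h n).read (.nr j r) = [] := by
        change (rd r).elim _ _ = _
        rw [hrd]
        rfl
      rw [h1, e]
      rfl

theorem sp_turn (f : N.Q) : ∀ (u : List N.P) (j : Fin (n + 2)), 0 < cnt N rd u →
    ∃ m r, (sp N rd n f j u).1 = m ++ [r] ∧ (up N rd h n).dst r = Stt.turn ∧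
      ∀ r' ∈ m, (up N rd h n).dst r' ≠ Stt.turn
  | [], j, hc => by simp [cnt] at hc
  | r :: u, j, hc => by
    cases hrd : rd r with
    | some t =>
      rw [cnt, hrd] at hc
      obtain ⟨m, r1, h1, h2, h3⟩ := sp_turn f u j hc
      refine ⟨.nr j r :: m, r1, ?_, h2, ?_⟩
      · rw [sp, hrd, h1]
        rfl
      · intro r' hr'
        rcases List.mem_cons.1 hr' with rfl | hr'
        · intro h4
          change (rd r).elim _ _ = _ at h4
          rw [hrd] at h4
          cases h4
        · exact h3 _ hr'
    | none =>
      refine ⟨[], .nr j r, ?_, ?_, by simp⟩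
      · rw [sp, hrd]
        rfl
      · change (rd r).elim _ _ = _
        rw [hrd]
        rfl

/-- the relation between the first rules of consecutive blocks -/
def RR (a b : Ru (Fin (n + 2)) N.P N.Q) : Prop :=
  (a = .ini ∧ ∃ q, b = .d (nx ⟨0, by omega⟩, q)) ∨
    ∃ j q q', a = .d (j, q) ∧ b = .d (nx j, q')

/-- the phase of a first rule -/
def Ph (a : Ru (Fin (n + 2)) N.P N.Q) (j : Fin (n + 2)) : Prop :=
  (a = .ini ∧ j = ⟨0, by omega⟩) ∨ ∃ q, a = .d (j, q)

theorem rr_iff {a b : Ru (Fin (n + 2)) N.P N.Q} {j : Fin (n + 2)} (ha : Ph a j) :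
    RR a b ↔ ∃ q, b = .d (nx j, q) := by
  rcases ha with ⟨rfl, rfl⟩ | ⟨q, rfl⟩
  · constructor
    · rintro (⟨_, h⟩ | ⟨j, q, q', h, _⟩)
      · exact h
      · cases h
    · intro h
      exact Or.inl ⟨rfl, h⟩
  · constructor
    · rintro (⟨h, _⟩ | ⟨j', q', q'', h, h'⟩)
      · cases h
      · have h1 : (j, q) = (j', q') := by injection h
        have h2 : j = j' := congrArg Prod.fst h1
        exact ⟨q'', by rw [h', h2]⟩
    · rintro ⟨q', h⟩
      exact Or.inr ⟨j, q, q', rfl, h⟩

theorem chain_iff : ∀ (B : List (List (Ru (Fin (n + 2)) N.P N.Q)))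
    (a : Ru (Fin (n + 2)) N.P N.Q) (b : List (Ru (Fin (n + 2)) N.P N.Q)) (j : Fin (n + 2)),
    Ph a j → (((a :: b) :: B).IsChain (fun b b' => ∃ r ∈ b.head?, ∃ r' ∈ b'.head?, RR r r') ↔
      Hd j B)
  | [], a, b, j, _ => by simp [Hd]
  | c :: B, a, b, j, ha => by
    rw [List.isChain_cons_cons]
    constructor
    · rintro ⟨⟨r, hr, r', hr', h⟩, h2⟩
      have hr1 : a = r := by simpa using hr
      subst hr1
      obtain ⟨q, hq⟩ := (rr_iff ha).1 h
      cases c with
      | nil => simp at hr'
      | cons c0 c =>
        have hr2 : c0 = r' := by simpa using hr'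
        subst hr2
        subst hq
        exact ⟨⟨q, c, rfl⟩, (chain_iff B _ c (nx j) (Or.inr ⟨q, rfl⟩)).1 h2⟩
    · rintro ⟨⟨q, c', rfl⟩, h2⟩
      exact ⟨⟨a, rfl, _, rfl, (rr_iff ha).2 ⟨q, rfl⟩⟩,
        (chain_iff B _ c' (nx j) (Or.inr ⟨q, rfl⟩)).2 h2⟩

end Pool.Agent.R538.SR
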