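import Pool.Agent.R538.SR.Up

/-!
# From intersections with `E n` to self-regulating automata: the theorem
-/

namespace Pool.Agent.R538.SR

variable {S T : Type}

theorem flat_map_rd {N : PDA (Option T)} {rd : N.P → Option T} (hrd : ∀ r, N.read r = [rd r])
    (u : List N.P) : u.flatMap N.read = u.map rd := by
  induction u with
  | nil => rfl
  | cons r u ih => rw [List.flatMap_cons, List.map_cons, ih, hrd]; rfl

theorem up_main (n : ℕ) (hn : 1 ≤ n) {K : Set (List (Option T))} (hK : RealTime K)
    (h : T → List S) : FSPDA n {w : List S | ∃ x ∈ K, x ∈ E n T ∧ w = hom h x} := by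
  obtain ⟨N, hN, rfl⟩ := hK
  obtain ⟨rd, hrd⟩ : ∃ rd : N.P → Option T, ∀ r, N.read r = [rd r] :=
    ⟨fun r => (List.length_eq_one_iff.1 (hN r)).choose,
      fun r => (List.length_eq_one_iff.1 (hN r)).choose_spec⟩
  refine ⟨up N rd h n, Stt.turn, RR, ?_⟩
  ext w
  constructor
  · rintro ⟨x, ⟨u, ⟨f, hf, hrun⟩, rfl⟩, ⟨X, k, hX, hk, hx⟩, rfl⟩
    rw [flat_map_rd hrd] at hx ⊢
    match X, hX, hk, hx with
    | [], hX, _, _ => simp at hX
    | x0 :: X, hX, hk, hx =>
      rw [jn_eq] at hx
      have h1 := jn_xsp u x0 X hx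
      have hc : cnt N rd u = n := by
        rw [← xsp_cnt, h1]
        simpa using hX
      have hlen : (sp N rd n f ⟨0, by omega⟩ u).1.length = k + 1 := by
        rw [sp_len, h1]
        have := hk x0 List.mem_cons_self
        change x0.length + 1 = k + 1
        omega
      have hlens : ∀ b ∈ (sp N rd n f ⟨0, by omega⟩ u).2, b.length = k + 2 := by
        intro b hb
        have h2 : b.length ∈ (sp N rd n f ⟨0, by omega⟩ u).2.map List.length :=
          List.mem_map_of_mem hb
        rw [sp_lens, h1] at h2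
        obtain ⟨y, hy, hy2⟩ := List.mem_map.1 h2
        have := hk y (List.mem_cons_of_mem _ hy)
        omega
      have hl2 : (sp N rd n f ⟨0, by omega⟩ u).2.length = n := by
        have h2 := congrArg List.length (sp_lens (rd := rd) (n := n) f u ⟨0, by omega⟩)
        rw [List.length_map, List.length_map, xsp_cnt] at h2
        omega
      have hflat : ((.ini :: (sp N rd n f ⟨0, by omega⟩ u).1) ::
          (sp N rd n f ⟨0, by omega⟩ u).2).flatten =
          (.ini :: enc N rd n f ⟨0, by omega⟩ u : List (Ru (Fin (n + 2)) N.P N.Q)) := by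
        rw [List.flatten_cons, List.cons_append, ← enc_sp]
      refine ⟨(.ini :: (sp N rd n f ⟨0, by omega⟩ u).1) :: (sp N rd n f ⟨0, by omega⟩ u).2,
        ⟨?_, ⟨k + 2, by omega, ?_⟩, ?_, ?_⟩, ?_, ?_⟩
      · exact congrArg (· + 1) hl2
      · intro b hb
        rcases List.mem_cons.1 hb with rfl | hb
        · exact congrArg (· + 1) hlen
        · exact hlens b hb
      · obtain ⟨m, r, h2, h3, h4⟩ := sp_turn (rd := rd) (h := h) (n := n) f u ⟨0, by omega⟩
          (by omega)
        refine ⟨.ini :: m, r, _, by rw [h2]; rfl, h3, ?_⟩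
        intro r' hr'
        rcases List.mem_cons.1 hr' with rfl | hr'
        · intro h5
          change Stt.run _ = Stt.turn at h5
          cases h5
        · exact h4 r' hr'
      · exact (chain_iff _ _ _ _ (Or.inl ⟨rfl, rfl⟩)).2 (sp_hd f u _)
      · refine ⟨Stt.fin, rfl, ?_⟩
        have h5 := run_up (rd := rd) (h := h) (n := n) hf u ⟨0, by omega⟩ N.q0 [N.Z0] hrun
          (by change cnt N rd u + 0 = n; omega)
        have h6 : Run (up N rd h n) ((up N rd h n).q0, [(up N rd h n).Z0])
            (.ini :: enc N rd n f ⟨0, by omega⟩ u) (Stt.fin, []) := ⟨[], rfl, h5⟩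
        exact (congrArg (fun m : List (up N rd h n).P => Run (up N rd h n)
          ((up N rd h n).q0, [(up N rd h n).Z0]) m (Stt.fin, [])) hflat).mpr h6
      · refine Eq.trans ?_ (congrArg (fun m : List (up N rd h n).P =>
          m.flatMap (up N rd h n).read) hflat).symm
        change _ = [] ++ (enc N rd n f ⟨0, by omega⟩ u).flatMap (up N rd h n).read
        rw [enc_read]
        rfl
  · rintro ⟨B, ⟨hB1, ⟨k, hk, hB2⟩, ⟨m, r, B', hB3, hr, hm⟩, hB4⟩, ⟨f', hf', hrun⟩, rfl⟩
    subst hB3
    have hf2 : f' = Stt.fin := hf'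
    subst hf2
    obtain ⟨a, b, hab⟩ : ∃ a b, m ++ [r] = a :: b := by
      cases m with
      | nil => exact ⟨_, _, rfl⟩
      | cons a m => exact ⟨_, _, rfl⟩
    rw [hab] at hB1 hB2 hB4 hrun ⊢
    rw [List.flatten_cons, List.cons_append] at hrun ⊢
    obtain ⟨s, h1, h2⟩ := hrun
    match a, h1, h2, hB4 with
    | .nr j r, h1, _, _ =>
      have h3 : (Stt.ini : Stt (Fin (n + 2) × N.Q)) = .run (j, N.src r) := congrArg Prod.fst h1
      cases h3
    | .d x, h1, _, _ =>
      have h3 : (Stt.ini : Stt (Fin (n + 2) × N.Q)) = .turn := congrArg Prod.fst h1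
      cases h3
    | .fi q, h1, _, _ =>
      have h3 : (Stt.ini : Stt (Fin (n + 2) × N.Q)) = .run (⟨n, by omega⟩, q) :=
        congrArg Prod.fst h1
      cases h3
    | .ini, h1, h2, hB4 =>
      have h3 : [(Sy.bot : Sy N.G (Fin (n + 2) × N.Q))] = Sy.bot :: s := congrArg Prod.snd h1
      have h4 : s = [] := (List.cons.inj h3).2.symm
      subst h4
      obtain ⟨u, f, hf, h5, h6, h7⟩ := up_run (rd := rd) (h := h) _ _ ⟨0, by omega⟩ N.q0 [N.Z0]
        le_rfl h2
      have h7' : cnt N rd u = n := h7
      have h8 := (chain_iff _ _ _ _ (Or.inl ⟨rfl, rfl⟩)).1 hB4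
      have h9 : B'.length = cnt N rd u := by
        rw [h7']
        simpa using hB1
      have h10 := sp_unique f u ⟨0, by omega⟩ b B' (by change cnt N rd u + 0 ≤ n; omega) h6.symm
        h8 h9
      have hlen := sp_len (rd := rd) (n := n) f u ⟨0, by omega⟩
      have hlens := sp_lens (rd := rd) (n := n) f u ⟨0, by omega⟩
      rw [h10] at hlen hlens
      refine ⟨u.map rd, ⟨u, ⟨f, hf, h5⟩, (flat_map_rd hrd u).symm⟩,
        ⟨(xsp N rd u).1 :: (xsp N rd u).2, k - 2, ?_, ?_, ?_⟩, ?_⟩
      · rw [List.length_cons, xsp_cnt, h7']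
      · have hb0 := hB2 _ List.mem_cons_self
        rw [List.length_cons] at hb0
        intro y hy
        rcases List.mem_cons.1 hy with rfl | hy
        · have h12 : b.length + 1 = k := hb0
          have h13 : b.length = (xsp N rd u).1.length + 1 := hlen
          omega
        · have h11 : y.length + 2 ∈ (xsp N rd u).2.map (fun x => x.length + 2) :=
            List.mem_map_of_mem (f := fun x : List T => x.length + 2) hy
          rw [← hlens] at h11
          obtain ⟨b', hb', hb''⟩ := List.mem_map.1 h11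
          have h12 : b'.length = k := hB2 b' (List.mem_cons_of_mem _ hb')
          omega
      · rw [jn_eq]
        exact xsp_jn u
      · change [] ++ (b ++ B'.flatten).flatMap (up N rd h n).read = _
        rw [h6, enc_read]
        rfl

end Pool.Agent.R538.SR
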